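import Mathlib

set_option autoImplicit false

open Filter Topology Set

namespace Pool.Agent.H.MP_6153ad_an

/-- Fine coloured open covers. -/
def Col {Y : Type} [PseudoMetricSpace Y] (κ : Type) (K : Set Y) (δ : ℝ) : Prop :=
  ∃ (ι : Type) (c : ι → κ) (β : ι → Set Y), (∀ i, IsOpen (β i)) ∧ (∀ x ∈ K, ∃ i, x ∈ β i) ∧
    (∀ i j, c i = c j → ∀ x ∈ K, x ∈ β i → x ∈ β j → i = j) ∧
    ∀ i, ∀ x ∈ K, ∀ y ∈ K, x ∈ β i → y ∈ β i → dist x y < δ

variable {Y Y' : Type} [PseudoMetricSpace Y] [PseudoMetricSpace Y'] {κ κ' : Type}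

theorem Col.comap {K : Set Y} {K' : Set Y'} {δ δ' : ℝ} (h : Col κ K' δ') (f : Y → Y')
    (hf : Continuous f) (hK : MapsTo f K K')
    (hd : ∀ x ∈ K, ∀ y ∈ K, dist (f x) (f y) < δ' → dist x y < δ) : Col κ K δ := by
  obtain ⟨ι, c, β, h1, h2, h3, h4⟩ := h
  exact ⟨ι, c, fun i => f ⁻¹' β i, fun i => (h1 i).preimage hf, fun x hx => h2 _ (hK hx),
    fun i j hij x hx => h3 i j hij _ (hK hx),
    fun i x hx y hy hxi hyi => hd x hx y hy (h4 i _ (hK hx) _ (hK hy) hxi hyi)⟩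

theorem Col.prod {K : Set Y} {K' : Set Y'} {δ : ℝ} (h : Col κ K δ) (h' : Col κ' K' δ) :
    Col (κ × κ') (K ×ˢ K') δ := by
  obtain ⟨ι, c, β, h1, h2, h3, h4⟩ := h
  obtain ⟨ι', c', β', h1', h2', h3', h4'⟩ := h'
  refine ⟨ι × ι', Prod.map c c', fun i => β i.1 ×ˢ β' i.2, fun i => (h1 _).prod (h1' _),
    fun x hx => ?_, fun i j hij x hx hi hj => ?_, fun i x hx y hy hxi hyi => ?_⟩
  · obtain ⟨i, hi⟩ := h2 _ hx.1
    obtain ⟨j, hj⟩ := h2' _ hx.2
    exact ⟨(i, j), hi, hj⟩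
  · exact Prod.ext (h3 _ _ (congrArg Prod.fst hij) _ hx.1 hi.1 hj.1)
      (h3' _ _ (congrArg Prod.snd hij) _ hx.2 hi.2 hj.2)
  · rw [Prod.dist_eq]
    exact max_lt (h4 _ _ hx.1 _ hy.1 hxi.1 hyi.1) (h4' _ _ hx.2 _ hy.2 hxi.2 hyi.2)

theorem exists_sep {K : Set Y} (hK : IsClosed K) {ι : Type} (c : ι → Bool) (β : ι → Set Y)
    (h1 : ∀ i, IsOpen (β i)) (h2 : ∀ x ∈ K, ∃ i, x ∈ β i) :
    ∃ d : Y → ℝ, Continuous d ∧ (∀ x ∈ K, d x < 1 → ∃ i, c i = false ∧ x ∈ β i) ∧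
      (∀ x ∈ K, 0 < d x → ∃ i, c i = true ∧ x ∈ β i) ∧ ∀ x, 0 ≤ d x ∧ d x ≤ 1 := by
  have hcl : ∀ b : Bool, IsClosed (K \ ⋃ i : {i // c i = b}, β i) := fun b =>
    hK.sdiff (isOpen_iUnion fun i => h1 i)
  obtain ⟨d, hd0, hd1, hd⟩ := exists_continuous_zero_one_of_isClosed (hcl true) (hcl false) (by
    rw [Set.disjoint_left]
    rintro x ⟨hx, hxt⟩ ⟨-, hxf⟩
    obtain ⟨i, hi⟩ := h2 x hx
    cases h : c i
    · exact hxf (mem_iUnion.2 ⟨⟨i, h⟩, hi⟩)
    · exact hxt (mem_iUnion.2 ⟨⟨i, h⟩, hi⟩))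
  refine ⟨d, d.continuous, fun x hx h => ?_, fun x hx h => ?_, fun x => hd x⟩
  · by_contra hne
    have : d x = 1 := hd1 ⟨hx, fun hm => by
      obtain ⟨i, hi⟩ := mem_iUnion.1 hm
      exact hne ⟨i, i.2, hi⟩⟩
    exact h.ne this
  · by_contra hne
    have : d x = 0 := hd0 ⟨hx, fun hm => by
      obtain ⟨i, hi⟩ := mem_iUnion.1 hm
      exact hne ⟨i, i.2, hi⟩⟩
    exact h.ne' this

theorem Col.prod3 {K : Set Y} {K' : Set Y'} {δ : ℝ} (h : Col Bool K δ) (h' : Col Bool K' δ)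
    (hK : IsClosed K) (hK' : IsClosed K') : Col (Fin 3) (K ×ˢ K') δ := by
  obtain ⟨ι, c, β, h1, h2, h3, h4⟩ := h
  obtain ⟨ι', c', β', h1', h2', h3', h4'⟩ := h'
  obtain ⟨d, hd, hf, ht, hb⟩ := exists_sep hK c β h1 h2
  obtain ⟨d', hd', hf', ht', hb'⟩ := exists_sep hK' c' β' h1' h2'
  let col : Bool → Bool → Fin 3 := fun a b => match a, b with
    | false, false => 0
    | true, true => 2
    | _, _ => 1
  let R : Bool → Bool → Set (Y × Y') := fun a b => match a, b with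
    | false, true => {p | d p.1 < d' p.2}
    | true, false => {p | d' p.2 < d p.1}
    | _, _ => univ
  have hR : ∀ a b, IsOpen (R a b) := by
    intro a b
    cases a <;> cases b
    · exact isOpen_univ
    · exact isOpen_lt (hd.comp continuous_fst) (hd'.comp continuous_snd)
    · exact isOpen_lt (hd'.comp continuous_snd) (hd.comp continuous_fst)
    · exact isOpen_univ
  refine ⟨ι × ι', fun i => col (c i.1) (c' i.2), fun i => β i.1 ×ˢ β' i.2 ∩ R (c i.1) (c' i.2),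
    fun i => ((h1 _).prod (h1' _)).inter (hR _ _), fun x hx => ?_, fun i j hij x hx hi hj => ?_,
    fun i x hx y hy hxi hyi => ?_⟩
  · rcases lt_trichotomy (d x.1) (d' x.2) with h | h | h
    · obtain ⟨i, hi, hxi⟩ := hf _ hx.1 (h.trans_le (hb' _).2)
      obtain ⟨j, hj, hxj⟩ := ht' _ hx.2 ((hb _).1.trans_lt h)
      exact ⟨(i, j), ⟨hxi, hxj⟩, by simp only [hi, hj]; exact h⟩
    · rcases lt_or_ge (d x.1) 1 with h0 | h0
      · obtain ⟨i, hi, hxi⟩ := hf _ hx.1 h0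
        obtain ⟨j, hj, hxj⟩ := hf' _ hx.2 (h ▸ h0)
        exact ⟨(i, j), ⟨hxi, hxj⟩, by simp only [hi, hj]; trivial⟩
      · obtain ⟨i, hi, hxi⟩ := ht _ hx.1 (by linarith)
        obtain ⟨j, hj, hxj⟩ := ht' _ hx.2 (by linarith)
        exact ⟨(i, j), ⟨hxi, hxj⟩, by simp only [hi, hj]; trivial⟩
    · obtain ⟨i, hi, hxi⟩ := ht _ hx.1 ((hb' _).1.trans_lt h)
      obtain ⟨j, hj, hxj⟩ := hf' _ hx.2 (h.trans_le (hb _).2)
      exact ⟨(i, j), ⟨hxi, hxj⟩, by simp only [hi, hj]; exact h⟩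
  · have key0 : ∀ a b a' b' : Bool, col a b = col a' b' → x ∈ R a b → x ∈ R a' b' →
        a = a' ∧ b = b' := by
      intro a b a' b'
      cases a <;> cases b <;> cases a' <;> cases b' <;> intro hij hi2 hj2 <;>
        first
          | exact ⟨rfl, rfl⟩
          | exact absurd hij (by decide)
          | exact absurd (lt_trans (show d x.1 < d' x.2 from hi2) (show d' x.2 < d x.1 from hj2))
              (lt_irrefl _)
          | exact absurd (lt_trans (show d x.1 < d' x.2 from hj2) (show d' x.2 < d x.1 from hi2))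
              (lt_irrefl _)
    have key := key0 _ _ _ _ hij hi.2 hj.2
    exact Prod.ext (h3 _ _ key.1 _ hx.1 hi.1.1 hj.1.1) (h3' _ _ key.2 _ hx.2 hi.1.2 hj.1.2)
  · rw [Prod.dist_eq]
    exact max_lt (h4 _ _ hx.1 _ hy.1 hxi.1.1 hyi.1.1) (h4' _ _ hx.2 _ hy.2 hxi.1.2 hyi.1.2)

/-- Offsets of the two colours. -/
noncomputable def off (b : Bool) : ℝ := if b then 0 else -(1 / 2)

theorem off_cover (x : ℝ) : ∃ b : Bool, x ∈ Ioo ((⌊x⌋ : ℝ) + off b) (⌊x⌋ + off b + 1) := by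
  have h1 := Int.floor_le x
  have h2 := Int.lt_floor_add_one x
  rcases h1.eq_or_lt with h | h
  · exact ⟨false, by simp only [off]; constructor <;> simp <;> linarith⟩
  · exact ⟨true, by simp only [off]; constructor <;> simp <;> linarith⟩

theorem int_eq {i j : ℤ} {o x : ℝ} (hi : x ∈ Ioo ((i : ℝ) + o) (i + o + 1))
    (hj : x ∈ Ioo ((j : ℝ) + o) (j + o + 1)) : i = j := by
  have h1 : (i : ℝ) < j + 1 := by linarith [hi.1, hj.2]
  have h2 : (j : ℝ) < i + 1 := by linarith [hi.2, hj.1]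
  have h1' : i < j + 1 := by exact_mod_cast h1
  have h2' : j < i + 1 := by exact_mod_cast h2
  omega

theorem col_real (δ : ℝ) (hδ : 0 < δ) : Col Bool (univ : Set ℝ) δ := by
  have h1 : Col Bool (univ : Set ℝ) 1 := by
    refine ⟨Bool × ℤ, Prod.fst, fun i => Ioo ((i.2 : ℝ) + off i.1) (i.2 + off i.1 + 1),
      fun i => isOpen_Ioo, fun x _ => ?_, fun i j hij x _ hi hj => ?_,
      fun i x _ y _ hx hy => ?_⟩
    · obtain ⟨b, hb⟩ := off_cover x
      exact ⟨(b, ⌊x⌋), hb⟩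
    · simp only [← hij] at hj
      exact Prod.ext hij (int_eq hi hj)
    · rw [Real.dist_eq, abs_lt]
      constructor <;> linarith [hx.1, hx.2, hy.1, hy.2]
  refine h1.comap (fun x => x / δ) (by fun_prop) (mapsTo_univ _ _) fun x _ y _ h => ?_
  rw [Real.dist_eq] at h ⊢
  rwa [← sub_div, abs_div, abs_of_pos hδ, div_lt_one hδ] at h

theorem col_complex (δ : ℝ) (hδ : 0 < δ) : Col (Bool × Bool) (univ : Set ℂ) δ := by
  have h := (col_real (δ / 2) (by positivity)).prod (col_real (δ / 2) (by positivity))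
  refine h.comap (fun z => (z.re, z.im)) (by fun_prop) (fun _ _ => ⟨trivial, trivial⟩)
    fun x _ y _ h => ?_
  rw [Prod.dist_eq, max_lt_iff, Real.dist_eq, Real.dist_eq] at h
  rw [dist_eq_norm]
  have := Complex.norm_le_abs_re_add_abs_im (x - y)
  rw [Complex.sub_re, Complex.sub_im] at this
  linarith [h.1, h.2]

theorem col_circle (r δ : ℝ) (hδ : 0 < δ) : Col Bool {z : ℂ | ‖z‖ = r} δ := by
  rcases eq_or_ne r 0 with rfl | hr0
  · refine ⟨Unit, fun _ => true, fun _ => univ, fun _ => isOpen_univ, fun _ _ => ⟨(), trivial⟩,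
      fun _ _ _ _ _ _ _ => rfl, fun _ x hx y hy _ _ => ?_⟩
    rw [mem_ofPred_eq, norm_eq_zero] at hx hy
    rw [hx, hy, dist_self]; exact hδ
  obtain ⟨N, hN⟩ := exists_nat_gt (|r| * (2 * Real.pi) / δ)
  have hpi : 0 < 2 * Real.pi := by positivity
  have hN0 : (0 : ℝ) < N := lt_of_le_of_lt (by positivity) hN
  let S : Bool × Fin N → Set ℂ := fun i =>
    {ζ | N * ζ.im / (2 * Real.pi) ∈ Ioo ((((i.2 : ℕ) : ℤ) : ℝ) + off i.1) (((i.2 : ℕ) : ℤ) + off i.1 + 1)}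
  refine ⟨Bool × Fin N, Prod.fst, fun i => Complex.exp '' S i, fun i => ?_, fun z hz => ?_,
    fun i j hij z _ hi hj => ?_, fun i x hx y hy hxi hyi => ?_⟩
  · exact Complex.isOpenMap_exp _ (isOpen_Ioo.preimage (by fun_prop))
  · have hz0 : z ≠ 0 := by
      rintro rfl
      exact hr0 (by simpa using hz.symm)
    set t := toIcoMod hpi 0 (Complex.arg z) with ht
    have ht1 := toIcoMod_mem_Ico' hpi (Complex.arg z)
    rw [← ht] at ht1
    obtain ⟨b, hb⟩ := off_cover (N * t / (2 * Real.pi))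
    have h0 : 0 ≤ ⌊N * t / (2 * Real.pi)⌋ := Int.floor_nonneg.2 (by have := ht1.1; positivity)
    have h1 : ⌊N * t / (2 * Real.pi)⌋ < N := by
      rw [Int.floor_lt, div_lt_iff₀ hpi]
      push_cast
      exact mul_lt_mul_of_pos_left ht1.2 hN0
    refine ⟨(b, ⟨⌊N * t / (2 * Real.pi)⌋.toNat, by omega⟩), ⟨Real.log ‖z‖, t⟩, ?_, ?_⟩
    · simp only [S, mem_ofPred_eq, Int.toNat_of_nonneg h0]
      exact hb
    · refine Eq.trans ?_ (Complex.exp_log hz0)
      rw [Complex.exp_eq_exp_iff_exists_int]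
      refine ⟨-toIcoDiv hpi 0 (Complex.arg z), ?_⟩
      apply Complex.ext
      · simp [Complex.log_re]
      · have := self_sub_toIcoDiv_zsmul hpi 0 (Complex.arg z)
        rw [← ht, zsmul_eq_mul] at this
        clear_value t
        simp [Complex.log_im]
        linarith
  · obtain ⟨ζ, hζ, rfl⟩ := hi
    obtain ⟨ζ', hζ', he⟩ := hj
    obtain ⟨m, hm⟩ := Complex.exp_eq_exp_iff_exists_int.1 he
    have him : N * ζ'.im / (2 * Real.pi) = N * ζ.im / (2 * Real.pi) + ((N * m : ℤ) : ℝ) := by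
      rw [hm]; simp; field_simp
    simp only [S, mem_ofPred_eq] at hζ hζ'
    rw [him, ← hij] at hζ'
    have h1 : ((i.2 : ℕ) : ℤ) = ((j.2 : ℕ) : ℤ) - N * m := by
      refine int_eq hζ ⟨?_, ?_⟩ <;> push_cast at hζ' ⊢ <;> linarith [hζ'.1, hζ'.2]
    have h2 := i.2.2
    have h3 := j.2.2
    have hm0 : m = 0 := by
      rcases lt_trichotomy m 0 with h | h | h
      · nlinarith
      · exact h
      · nlinarith
    refine Prod.ext hij (Fin.ext ?_)
    rw [hm0] at h1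
    omega
  · obtain ⟨ζ, hζ, rfl⟩ := hxi
    obtain ⟨ζ', hζ', rfl⟩ := hyi
    simp only [S, mem_ofPred_eq] at hζ hζ' hx hy
    have hre : ζ.re = ζ'.re := by
      rw [Complex.norm_exp] at hx hy
      exact Real.exp_injective (hx.trans hy.symm)
    have h1 : Complex.exp ζ - Complex.exp ζ' =
        Complex.exp ζ' * (Complex.exp (Complex.I * ((ζ.im - ζ'.im : ℝ) : ℂ)) - 1) := by
      rw [mul_sub, mul_one, ← Complex.exp_add]
      congr 2
      apply Complex.ext <;> simp [hre]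
    have h2 : |ζ.im - ζ'.im| < 2 * Real.pi / N := by
      have e : ζ.im - ζ'.im = (N * ζ.im / (2 * Real.pi) - N * ζ'.im / (2 * Real.pi)) *
          (2 * Real.pi / N) := by field_simp
      rw [e, abs_mul, abs_of_pos (by positivity : 0 < 2 * Real.pi / N)]
      refine mul_lt_of_lt_one_left (by positivity) ?_
      rw [abs_lt]
      constructor <;> linarith [hζ.1, hζ.2, hζ'.1, hζ'.2]
    rw [dist_eq_norm, h1, norm_mul, hy]
    have h3 := Real.norm_exp_I_mul_ofReal_sub_one_le (x := ζ.im - ζ'.im)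
    rw [Real.norm_eq_abs] at h3
    have hr : 0 ≤ r := hy ▸ norm_nonneg _
    rw [abs_of_nonneg hr, div_lt_iff₀ hδ] at hN
    calc _ ≤ r * (2 * Real.pi / N) := by gcongr; exact h3.trans h2.le
      _ < δ := by rw [← mul_div_assoc, div_lt_iff₀ hN0]; linarith

theorem col_levels {P : Set Y} {δ : ℝ} (g : Y → ℝ) (hg : Continuous g)
    (hP : ∀ x ∈ P, ∃ j : ℤ, g x = j) (h : ∀ j : ℤ, Col κ (P ∩ {x | g x = j}) δ) : Col κ P δ := by
  choose ι c β h1 h2 h3 h4 using h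
  have key : ∀ (j : ℤ), ∀ x ∈ P, g x ∈ Ioo ((j : ℝ) + off false) (j + off false + 1) → g x = j := by
    intro j x hx hj
    obtain ⟨j', hj'⟩ := hP x hx
    have : j' = j := int_eq (x := g x) (by rw [hj']; simp only [off]; constructor <;> simp; linarith) hj
    rw [hj', this]
  refine ⟨Σ j, ι j, fun i => c i.1 i.2,
    fun i => β i.1 i.2 ∩ g ⁻¹' Ioo ((i.1 : ℝ) + off false) (i.1 + off false + 1),
    fun i => (h1 _ _).inter (isOpen_Ioo.preimage hg), fun x hx => ?_, ?_, ?_⟩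
  · obtain ⟨j, hj⟩ := hP x hx
    obtain ⟨i, hi⟩ := h2 j x ⟨hx, hj⟩
    exact ⟨⟨j, i⟩, hi, by
      simp only [mem_preimage, hj, off]; constructor <;> simp; linarith⟩
  · rintro ⟨j, i⟩ ⟨j', i'⟩ hc x hx hi hi'
    obtain rfl : j = j' := int_eq hi.2 hi'.2
    rw [h3 j i i' hc x ⟨hx, key j x hx hi.2⟩ hi.1 hi'.1]
  · rintro ⟨j, i⟩ x hx y hy hxi hyi
    exact h4 j i x ⟨hx, key j x hx hxi.2⟩ y ⟨hy, key j y hy hyi.2⟩ hxi.1 hyi.1

theorem refine_of_col [Fintype κ] {P : Set Y} (hP : IsCompact P) (h : ∀ δ > 0, Col κ P δ)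
    {ι : Type} (α : ι → Set Y) (hα : ∀ i, IsOpen (α i)) (hc : P ⊆ ⋃ i, α i) :
    ∃ (m : ℕ) (γ : Fin m → Set Y), (∀ j, IsOpen (γ j)) ∧ P ⊆ ⋃ j, γ j ∧
      (∀ j, ∃ i, γ j ∩ P ⊆ α i) ∧ ∀ x ∈ P, {j : Fin m | x ∈ γ j}.ncard ≤ Fintype.card κ := by
  classical
  obtain ⟨δ, hδ, hL⟩ := lebesgue_number_lemma_of_metric hP hα hc
  obtain ⟨ι', c, β, h1, h2, h3, h4⟩ := h δ hδ
  obtain ⟨t, ht⟩ := hP.elim_finite_subcover β h1 fun x hx => mem_iUnion.2 (h2 x hx)
  let t' := t.filter fun i => (β i ∩ P).Nonempty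
  refine ⟨t'.card, fun j => β (t'.equivFin.symm j), fun j => h1 _, fun x hx => ?_, fun j => ?_,
    fun x hx => ?_⟩
  · obtain ⟨i, hi, hxi⟩ := mem_iUnion₂.1 (ht hx)
    refine mem_iUnion.2 ⟨t'.equivFin ⟨i, Finset.mem_filter.2 ⟨hi, x, hxi, hx⟩⟩, ?_⟩
    simpa using hxi
  · obtain ⟨x, hx1, hx2⟩ := (Finset.mem_filter.1 (t'.equivFin.symm j).2).2
    obtain ⟨i, hi⟩ := hL x hx2
    exact ⟨i, fun y hy => hi (h4 _ y hy.2 x hx2 hy.1 hx1)⟩
  · rw [← Nat.card_eq_fintype_card, ← Set.ncard_univ]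
    refine Set.ncard_le_ncard_of_injOn (fun j => c (t'.equivFin.symm j)) (fun _ _ => trivial)
      (fun j hj j' hj' hjj => ?_) (Set.toFinite _)
    exact t'.equivFin.symm.injective (Subtype.ext (h3 _ _ hjj x hx hj hj'))

end Pool.Agent.H.MP_6153ad_an
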