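import Pool.Agent.H.MP_6153ad_an.A

set_option autoImplicit false

open Filter Topology Set MeasureTheory
open scoped FourierTransform

namespace Pool.Agent.H.MP_6153ad_an

/-- The three-sphere. -/
abbrev S3 : Type := {p : ℂ × ℂ // ‖p.1‖ ^ 2 + ‖p.2‖ ^ 2 = 1}

/-- The circle of angles. -/
abbrev Ci : Type := AddCircle (1 : ℝ)

instance : CompactSpace S3 := by
  refine isCompact_iff_compactSpace.1 (Metric.isCompact_of_isClosed_isBounded
    (isClosed_eq (by fun_prop) continuous_const) ?_)
  refine (Metric.isBounded_closedBall (x := (0 : ℂ × ℂ)) (r := 1)).subset fun p hp => ?_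
  rw [mem_closedBall_zero_iff, Prod.norm_def]
  have hp' : ‖p.1‖ ^ 2 + ‖p.2‖ ^ 2 = 1 := hp
  have h1 := norm_nonneg p.1
  have h2 := norm_nonneg p.2
  exact max_le (by nlinarith) (by nlinarith)

theorem norm_four (n : ℤ) (θ : Ci) : ‖fourier n θ‖ = 1 := Circle.norm_coe _

theorem four_add (n : ℤ) (θ θ' : Ci) : fourier n (θ + θ') = fourier n θ * fourier n θ' := by
  simp only [fourier_apply, smul_add, AddCircle.toCircle_add, Circle.coe_mul]

/-- The Hopf circle action. -/
noncomputable def rot (θ : Ci) (x : S3) : S3 :=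
  ⟨(fourier 1 θ * x.1.1, fourier 1 θ * x.1.2), by simpa only [norm_mul, norm_four, one_mul] using x.2⟩

theorem rot_add (θ θ' : Ci) (x : S3) : rot (θ + θ') x = rot θ (rot θ' x) := by
  apply Subtype.ext
  simp only [rot, four_add, mul_assoc]

theorem rot_zero (x : S3) : rot 0 x = x := by
  apply Subtype.ext
  simp only [rot, fourier_eval_zero, one_mul]

theorem rot_cont : Continuous fun p : Ci × S3 => rot p.1 p.2 := by
  refine Continuous.subtype_mk ?_ _
  have := (fourier (T := 1) 1).continuous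
  fun_prop

theorem rot_fix {θ : Ci} {x : S3} (h : rot θ x = x) : fourier 1 θ = 1 := by
  by_contra hne
  have h1 : fourier 1 θ * x.1.1 = x.1.1 := congrArg (fun y : S3 => y.1.1) h
  have h2 : fourier 1 θ * x.1.2 = x.1.2 := congrArg (fun y : S3 => y.1.2) h
  have e1 : x.1.1 = 0 := by
    by_contra h0; exact hne (mul_right_cancel₀ h0 (h1.trans (one_mul _).symm))
  have e2 : x.1.2 = 0 := by
    by_contra h0; exact hne (mul_right_cancel₀ h0 (h2.trans (one_mul _).symm))
  have := x.2
  rw [e1, e2] at this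
  simp at this

/-- The period function. -/
noncomputable def per (x : S3) : ℝ := 2 + ‖x.1.1‖ ^ 2 / 2

theorem per_ge (x : S3) : 2 ≤ per x := by
  rw [per]; have := sq_nonneg ‖x.1.1‖; linarith

theorem per_lt (x : S3) : per x < 3 := by
  rw [per]; have := sq_nonneg ‖x.1.2‖; linarith [x.2]

theorem per_pos (x : S3) : 0 < per x := by linarith [per_ge x]

theorem per_rot (θ : Ci) (x : S3) : per (rot θ x) = per x := by
  simp only [per, rot, norm_mul, norm_four, one_mul]

theorem per_cont : Continuous per := by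
  unfold per; fun_prop

noncomputable instance act : AddAction ℝ S3 where
  vadd t x := rot ((t / per x : ℝ) : Ci) x
  zero_vadd x := by
    change rot ((0 / per x : ℝ) : Ci) x = x
    rw [zero_div, QuotientAddGroup.mk_zero, rot_zero]
  add_vadd s t x := by
    change rot (((s + t) / per x : ℝ) : Ci) x =
      rot ((s / per (rot ((t / per x : ℝ) : Ci) x) : ℝ) : Ci) (rot ((t / per x : ℝ) : Ci) x)
    rw [per_rot, ← rot_add, add_div, QuotientAddGroup.mk_add]

theorem vadd_def (t : ℝ) (x : S3) : t +ᵥ x = rot ((t / per x : ℝ) : Ci) x := rfl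

instance : ContinuousVAdd ℝ S3 where
  continuous_vadd := by
    have h1 : Continuous fun p : ℝ × S3 => ((p.1 / per p.2 : ℝ) : Ci) :=
      (AddCircle.continuous_mk' 1).comp
        (continuous_fst.div (per_cont.comp continuous_snd) fun p => (per_pos _).ne')
    exact rot_cont.comp (h1.prodMk continuous_snd)

theorem fix_int {r : ℝ} {x : S3} (h : r +ᵥ x = x) : ∃ j : ℤ, r / per x = j := by
  have h1 := rot_fix h
  rw [fourier_coe_apply, Complex.exp_eq_one_iff] at h1
  obtain ⟨n, hn⟩ := h1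
  refine ⟨n, ?_⟩
  have h2 : ((r / per x : ℝ) : ℂ) = n := by
    have hpi : (2 * Real.pi * Complex.I : ℂ) ≠ 0 := Complex.two_pi_I_ne_zero
    apply mul_left_cancel₀ hpi
    rw [mul_comm _ (n : ℂ), ← hn]; simp
  exact_mod_cast h2

theorem col_S3 (δ : ℝ) (hδ : 0 < δ) : Col ((Bool × Bool) × (Bool × Bool)) (univ : Set S3) δ :=
  ((col_complex δ hδ).prod (col_complex δ hδ)).comap Subtype.val continuous_subtype_val
    (fun _ _ => ⟨trivial, trivial⟩) fun _ _ _ _ h => h

theorem col_P (r : ℝ) (hr : 0 < r) (δ : ℝ) (hδ : 0 < δ) :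
    Col (Fin 3) {x : S3 | r +ᵥ x = x} δ := by
  refine col_levels (fun x => r / per x) (continuous_const.div per_cont fun x => (per_pos x).ne')
    (fun x hx => fix_int hx) fun j => ?_
  have hT : ∀ c c' : ℝ, Col (Fin 3) ({z : ℂ | ‖z‖ = c} ×ˢ {z : ℂ | ‖z‖ = c'}) δ := fun c c' =>
    (col_circle c δ hδ).prod3 (col_circle c' δ hδ) (isClosed_eq continuous_norm continuous_const)
      (isClosed_eq continuous_norm continuous_const)
  rcases ({x : S3 | r +ᵥ x = x} ∩ {x | r / per x = j}).eq_empty_or_nonempty with h | ⟨y, hy⟩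
  · refine (hT 0 0).comap Subtype.val continuous_subtype_val ?_ fun _ _ _ _ h => h
    rw [h]; exact mapsTo_empty _ _
  · refine (hT ‖y.1.1‖ ‖y.1.2‖).comap Subtype.val continuous_subtype_val (fun x hx => ?_)
      fun _ _ _ _ h => h
    have h1 : r / per x = r / per y := hx.2.trans hy.2.symm
    rw [div_eq_div_iff (per_pos x).ne' (per_pos y).ne'] at h1
    have h2 : per y = per x := mul_left_cancel₀ hr.ne' h1
    simp only [per] at h2
    exact ⟨(sq_eq_sq₀ (norm_nonneg _) (norm_nonneg _)).1 (by linarith),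
      (sq_eq_sq₀ (norm_nonneg _) (norm_nonneg _)).1 (by linarith [x.2, y.2])⟩

theorem hyp_mdim : ∃ c : ℝ, c < 1 ∧ ∀ (k : ℕ) (α : Fin k → Set S3), (∀ i, IsOpen (α i)) →
      (⋃ i, α i) = Set.univ →
      ∃ n : ℕ, 0 < n ∧ ∃ (m : ℕ) (γ : Fin m → Set S3), (∀ j, IsOpen (γ j)) ∧
        (⋃ j, γ j) = Set.univ ∧
        (∀ j, ∃ s : Fin n → Fin k, γ j ⊆ {x | ∀ i : Fin n, ((i : ℕ) : ℝ) +ᵥ x ∈ α (s i)}) ∧
        ∀ x : S3, (({j : Fin m | x ∈ γ j}.ncard : ℝ) - 1 < c * n) := by
  refine ⟨1 / 2, by norm_num, fun k α hα hc => ⟨40, by norm_num, ?_⟩⟩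
  obtain ⟨m, γ, h1, h2, h3, h4⟩ := refine_of_col isCompact_univ col_S3
    (fun s : Fin 40 → Fin k => {x : S3 | ∀ i : Fin 40, ((i : ℕ) : ℝ) +ᵥ x ∈ α (s i)})
    (fun s => by
      rw [ofPred_forall]
      exact isOpen_iInter_of_finite fun i => (hα _).preimage (continuous_const_vadd _))
    (fun x _ => by
      have : ∀ i : Fin 40, ∃ j, ((i : ℕ) : ℝ) +ᵥ x ∈ α j := fun i =>
        mem_iUnion.1 (hc ▸ mem_univ _)
      choose s hs using this
      exact mem_iUnion.2 ⟨s, hs⟩)
  refine ⟨m, γ, h1, univ_subset_iff.1 h2, fun j => by simpa using h3 j, fun x => ?_⟩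
  have h5 := h4 x trivial
  simp only [Fintype.card_prod, Fintype.card_bool] at h5
  have h6 : ({j : Fin m | x ∈ γ j}.ncard : ℝ) ≤ 16 := by exact_mod_cast h5
  push_cast
  linarith

theorem hyp_per : ∀ r : ℝ, 0 < r → ∀ (k : ℕ) (α : Fin k → Set S3), (∀ i, IsOpen (α i)) →
      {x : S3 | r +ᵥ x = x} ⊆ ⋃ i, α i →
      ∃ (m : ℕ) (γ : Fin m → Set S3), (∀ j, IsOpen (γ j)) ∧
        {x : S3 | r +ᵥ x = x} ⊆ ⋃ j, γ j ∧
        (∀ j, ∃ i, γ j ∩ {x : S3 | r +ᵥ x = x} ⊆ α i) ∧
        ∀ x ∈ {x : S3 | r +ᵥ x = x}, {j : Fin m | x ∈ γ j}.ncard ≤ ⌊1 * r⌋₊ + 1 := by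
  intro r hr k α hα hc
  obtain ⟨m, γ, h1, h2, h3, h4⟩ := refine_of_col
    (isClosed_eq (continuous_const_vadd r) continuous_id).isCompact (col_P r hr) α hα hc
  refine ⟨m, γ, h1, h2, h3, fun x hx => (h4 x hx).trans ?_⟩
  obtain ⟨j, hj⟩ := fix_int hx
  have hj0 : (0 : ℝ) < j := hj ▸ div_pos hr (per_pos x)
  have hj1 : (1 : ℝ) ≤ j := by
    have : 0 < j := by exact_mod_cast hj0
    exact_mod_cast this
  rw [div_eq_iff (per_pos x).ne'] at hj
  have h2r : 2 ≤ ⌊1 * r⌋₊ := Nat.le_floor (by push_cast; nlinarith [per_ge x])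
  simp only [Fintype.card_fin]
  omega

/-- Fourier coefficients along the Hopf circles. -/
noncomputable def co (G : S3 → ℂ) (j : ℤ) (x : S3) : ℂ := fourierCoeff (fun θ : Ci => G (rot θ x)) j

theorem co_rot (G : S3 → ℂ) (j : ℤ) (s : Ci) (x : S3) :
    co G j (rot s x) = fourier j s * co G j x := by
  simp only [co, fourierCoeff, ← rot_add]
  rw [← integral_const_mul, ← integral_add_right_eq_self (μ := AddCircle.haarAddCircle)
    (fun θ : Ci => fourier j s * (fourier (-j) θ • G (rot θ x))) s]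
  congr 1
  funext θ
  rw [four_add, smul_eq_mul, smul_eq_mul]
  have : fourier j s * fourier (-j) s = 1 := by rw [← fourier_add]; simp
  linear_combination (-(fourier (-j) θ * G (rot (θ + s) x))) * this

theorem co_cont (G : S3 → ℂ) (hG : Continuous G) (j : ℤ) : Continuous (co G j) := by
  have h1 : Continuous (Function.uncurry fun (x : S3) (θ : Ci) => fourier (-j) θ • G (rot θ x)) :=
    ((fourier (-j)).continuous.comp continuous_snd).smul
      (hG.comp (rot_cont.comp (continuous_snd.prodMk continuous_fst)))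
  have := continuous_parametric_integral_of_continuous (μ := AddCircle.haarAddCircle) h1
    isCompact_univ
  simp only [Measure.restrict_univ] at this
  exact this

theorem co_neg (G : S3 → ℝ) (j : ℤ) (x : S3) :
    co (fun y => (G y : ℂ)) (-j) x = starRingEnd ℂ (co (fun y => (G y : ℂ)) j x) := by
  simp only [co, fourierCoeff]
  rw [← integral_conj]
  congr 1
  funext θ
  rw [neg_neg, smul_eq_mul, smul_eq_mul, map_mul, Complex.conj_ofReal, fourier_neg,
    Complex.conj_conj]

theorem co_high (G : S3 → ℂ) (hG : Continuous G) (j : ℤ) (x : S3) (φ : SchwartzMap ℝ ℂ)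
    (h : ∀ y : S3, ∫ t : ℝ, G (t +ᵥ y) * 𝓕 (⇑φ : ℝ → ℂ) t = 0) :
    co G j x * φ (j / per x) = 0 := by
  have hint : Integrable (𝓕 (⇑φ : ℝ → ℂ)) := (𝓕 φ).integrable
  have hcont : Continuous (𝓕 (⇑φ : ℝ → ℂ)) := (𝓕 φ).continuous
  obtain ⟨C, hC⟩ := isCompact_univ.exists_bound_of_continuousOn hG.continuousOn
  let F : Ci → ℝ → ℂ := fun θ t => fourier (-j) θ * (G (t +ᵥ rot θ x) * 𝓕 (⇑φ : ℝ → ℂ) t)
  have hF : Integrable (Function.uncurry F) ((AddCircle.haarAddCircle : Measure Ci).prod volume) := by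
    have hFc : Continuous (Function.uncurry F) :=
      ((fourier (-j)).continuous.comp continuous_fst).mul
        ((hG.comp (continuous_snd.vadd (rot_cont.comp (continuous_fst.prodMk continuous_const)))).mul
          (hcont.comp continuous_snd))
    refine Integrable.mono' ((integrable_const C).mul_prod hint.norm) hFc.aestronglyMeasurable
      (Eventually.of_forall fun p => ?_)
    simp only [F, Function.uncurry, norm_mul, norm_four, one_mul]
    exact mul_le_mul_of_nonneg_right (hC _ trivial) (norm_nonneg _)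
  have h1 := integral_integral_swap hF
  have h2 : ∫ θ, ∫ t, F θ t ∂volume ∂(AddCircle.haarAddCircle : Measure Ci) = 0 := by
    simp only [F, integral_const_mul, h, mul_zero, integral_zero]
  have h3 : ∀ t : ℝ, ∫ θ, F θ t ∂(AddCircle.haarAddCircle : Measure Ci) =
      co G j x * (Complex.exp ((↑(2 * Real.pi * inner ℝ t (j / per x)) * Complex.I)) •
        𝓕 (⇑φ : ℝ → ℂ) t) := by
    intro t
    have e1 : ∀ θ, t +ᵥ rot θ x = rot θ (rot ((t / per x : ℝ) : Ci) x) := fun θ => by
      rw [vadd_def, per_rot, ← rot_add, ← rot_add, add_comm]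
    have e2 := co_rot G j ((t / per x : ℝ) : Ci) x
    simp only [F, e1, ← mul_assoc]
    rw [integral_mul_const]
    change co G j _ * _ = _
    rw [e2, fourier_coe_apply, smul_eq_mul, ← mul_assoc, mul_comm (co G j x)]
    congr 3
    simp only [Real.inner_apply]
    push_cast
    ring
  rw [h2] at h1
  simp only [h3] at h1
  rw [integral_const_mul, ← Real.fourierInv_eq',
    φ.continuous.fourierInv_fourier_eq φ.integrable hint] at h1
  exact h1.symm

theorem exists_test (ξ : ℝ) (hξ : 1 < |ξ|) : ∃ φ : SchwartzMap ℝ ℂ, HasCompactSupport (⇑φ) ∧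
    Disjoint (tsupport (⇑φ)) (Set.Icc (-1) 1) ∧ φ ξ = 1 := by
  let b : ContDiffBump ξ := ⟨(|ξ| - 1) / 4, (|ξ| - 1) / 2, by linarith, by linarith⟩
  have h1 : HasCompactSupport (fun t => (b t : ℂ)) :=
    b.hasCompactSupport.comp_left (g := fun s : ℝ => (s : ℂ)) (by simp)
  refine ⟨h1.toSchwartzMap (Complex.ofRealCLM.contDiff.comp b.contDiff), h1, ?_, ?_⟩
  · change Disjoint (tsupport fun t => (b t : ℂ)) _
    have h2 : tsupport (fun t => (b t : ℂ)) ⊆ tsupport b :=
      tsupport_comp_subset (g := fun s : ℝ => (s : ℂ)) (by simp) b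
    rw [b.tsupport_eq] at h2
    refine Set.disjoint_left.2 fun t ht ht' => ?_
    have h3 := h2 ht
    rw [Metric.mem_closedBall, Real.dist_eq] at h3
    change |t - ξ| ≤ (|ξ| - 1) / 2 at h3
    have h4 : |t| ≤ 1 := abs_le.2 ht'
    have h5 := abs_sub_abs_le_abs_sub ξ t
    rw [abs_sub_comm] at h5
    linarith
  · change ((b ξ : ℝ) : ℂ) = 1
    rw [b.one_of_mem_closedBall (Metric.mem_closedBall_self b.rIn_pos.le)]; simp

theorem no_equivariant (c : S3 → ℂ) (hc : Continuous c) (h0 : ∀ x, c x ≠ 0)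
    (he : ∀ (s : Ci) x, c (rot s x) = fourier 1 s * c x) : False := by
  let pt : ℝ × ℝ → S3 := fun p => ⟨((Real.cos p.1 : ℂ) * fourier 1 (p.2 : Ci), (Real.sin p.1 : ℂ)), by
    simp only [norm_mul, norm_four, mul_one, Complex.norm_real, Real.norm_eq_abs, sq_abs]
    exact Real.cos_sq_add_sin_sq _⟩
  have hpt : Continuous pt := by
    refine Continuous.subtype_mk ?_ _
    have h1 : Continuous fun p : ℝ × ℝ => fourier 1 (p.2 : Ci) :=
      (fourier (T := 1) 1).continuous.comp ((AddCircle.continuous_mk' 1).comp continuous_snd)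
    fun_prop
  let f : C(ℝ × ℝ, {z : ℂ // z ≠ 0}) := ⟨fun p => ⟨c (pt p), h0 _⟩, (hc.comp hpt).subtype_mk _⟩
  have cov := Complex.isCoveringMap_exp
  obtain ⟨L, ⟨-, hL⟩, -⟩ := cov.existsUnique_continuousMap_lifts f (0, 0) (Complex.log (c (pt (0, 0))))
    (Subtype.ext (Complex.exp_log (h0 _)))
  have hL' : ∀ p, Complex.exp (L p) = c (pt p) := fun p => congrArg Subtype.val (congrFun hL p)
  have hconst : ∀ g : ℝ → ℂ, Continuous g → (∀ a b, Complex.exp (g a) = Complex.exp (g b)) →
      ∀ a b, g a = g b := fun g hg h => cov.const_of_comp hg fun a b => Subtype.ext (h a b)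
  have hLc := L.continuous
  have h1 := hconst (fun s => L (s, 1) - L (s, 0)) (by fun_prop) (fun a b => by
    have : ∀ s, Complex.exp (L (s, 1) - L (s, 0)) = 1 := fun s => by
      have e : pt (s, 1) = pt (s, 0) := by
        apply Subtype.ext
        simp only [pt, AddCircle.coe_period, QuotientAddGroup.mk_zero]
      rw [Complex.exp_sub, hL', hL', e, div_self (h0 _)]
    rw [this, this]) 0 (Real.pi / 2)
  have h2 := hconst (fun θ => L (Real.pi / 2, θ)) (by fun_prop) (fun a b => by
    have e : pt (Real.pi / 2, a) = pt (Real.pi / 2, b) := by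
      apply Subtype.ext
      simp [pt]
    rw [hL', hL', e]) 1 0
  have h3 := hconst (fun θ => L (0, θ) - 2 * Real.pi * Complex.I * θ) (by fun_prop) (fun a b => by
    have : ∀ s : ℝ, Complex.exp (L (0, s) - 2 * Real.pi * Complex.I * s) = c (pt (0, 0)) := fun s => by
      have e : pt (0, s) = rot (s : Ci) (pt (0, 0)) := by
        apply Subtype.ext
        simp only [pt, rot, QuotientAddGroup.mk_zero, fourier_eval_zero]
        simp
      rw [Complex.exp_sub, hL', e, he, fourier_coe_apply]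
      simp
    rw [this, this]) 1 0
  simp only [h2, sub_self] at h1
  simp only [Complex.ofReal_one, mul_one, Complex.ofReal_zero, mul_zero, sub_zero] at h3
  apply Complex.two_pi_I_ne_zero
  linear_combination h1 - h3

theorem no_embed (Φ : S3 → C(ℝ, ℝ)) (hΦ : Continuous Φ) (hi : Function.Injective Φ)
    (hb : ∀ (x : S3) (φ : SchwartzMap ℝ ℂ), HasCompactSupport (⇑φ) →
        Disjoint (tsupport (⇑φ)) (Set.Icc (-1) 1) →
        ∫ t, ((Φ x t : ℝ) : ℂ) * 𝓕 (⇑φ : ℝ → ℂ) t = 0)
    (he : ∀ (r : ℝ) (x : S3) (t : ℝ), Φ (r +ᵥ x) t = Φ x (t + r)) : False := by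
  let G : S3 → ℂ := fun x => ((Φ x 0 : ℝ) : ℂ)
  have hG : Continuous G := Complex.continuous_ofReal.comp (hΦ.eval_const 0)
  have hGt : ∀ (t : ℝ) y, G (t +ᵥ y) = ((Φ y t : ℝ) : ℂ) := fun t y => by
    simp only [G, he, zero_add]
  have hhigh : ∀ (j : ℤ) x, 3 ≤ |j| → co G j x = 0 := by
    intro j x hj
    obtain ⟨φ, h1, h2, h3⟩ := exists_test (j / per x) (by
      rw [abs_div, abs_of_pos (per_pos x), one_lt_div (per_pos x)]
      have : (3 : ℝ) ≤ |(j : ℝ)| := by exact_mod_cast hj
      linarith [per_lt x])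
    have := co_high G hG j x φ fun y => by simpa only [hGt] using hb y φ h1 h2
    rwa [h3, mul_one] at this
  refine no_equivariant (co G 1) (co_cont G hG 1) (fun x hx => ?_) (co_rot G 1)
  set h : Ci := ((1 / 2 : ℝ) : Ci) with hh
  have hfh : ∀ j : ℤ, fourier j h = (-1) ^ j := fun j => by
    rw [hh, fourier_coe_apply, ← Complex.exp_pi_mul_I, ← Complex.exp_int_mul]
    congr 1; push_cast; ring
  have hcoef : ∀ j, co G j (rot h x) = co G j x := by
    intro j
    rw [co_rot, hfh]
    rcases Int.even_or_odd j with hj | hj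
    · rw [hj.neg_one_zpow, one_mul]
    · have : co G j x = 0 := by
        by_cases h3 : 3 ≤ |j|
        · exact hhigh j x h3
        · obtain ⟨m, rfl⟩ := hj
          have : 2 * m + 1 = 1 ∨ 2 * m + 1 = -1 := by
            rw [not_le, abs_lt] at h3; omega
          rcases this with h1 | h1
          · rw [h1, hx]
          · rw [h1, co_neg (fun y => Φ y 0) 1 x]
            change starRingEnd ℂ (co G 1 x) = 0
            rw [hx, map_zero]
      rw [this, mul_zero]
  let F : S3 → C(Ci, ℂ) := fun y =>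
    ⟨fun θ => G (rot θ y), hG.comp (rot_cont.comp (continuous_id.prodMk continuous_const))⟩
  have hzero : fourierCoeff (⇑(F (rot h x) - F x)) = 0 := by
    funext j
    have i1 : ∀ y, Integrable (fun θ : Ci => fourier (-j) θ • F y θ) AddCircle.haarAddCircle :=
      fun y => ((F y).continuous.integrable_of_hasCompactSupport
        (HasCompactSupport.of_compactSpace _)).fourier_smul _
    have := hcoef j
    rw [← sub_eq_zero, co, co, fourierCoeff, fourierCoeff] at this
    rw [Pi.zero_apply, ← this, fourierCoeff]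
    simp only [ContinuousMap.sub_apply, smul_sub]
    exact integral_sub (i1 _) (i1 _)
  have hs := hasSum_fourier_series_of_summable (f := F (rot h x) - F x)
    (by rw [hzero]; exact summable_zero)
  have hF : F (rot h x) = F x := sub_eq_zero.1 (hs.unique (hasSum_zero.congr_fun fun i => by
    rw [hzero, Pi.zero_apply]; exact zero_smul ℂ (fourier i : C(Ci, ℂ))))
  have hΦe : Φ (rot h x) = Φ x := by
    ext t
    have h1 := hGt t (rot h x)
    have h2 := hGt t x
    rw [vadd_def, per_rot] at h1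
    rw [vadd_def] at h2
    have h3 : F (rot h x) ((t / per x : ℝ) : Ci) = F x ((t / per x : ℝ) : Ci) := by rw [hF]
    exact_mod_cast h1.symm.trans (h3.trans h2)
  have := rot_fix (hi hΦe)
  rw [hfh] at this
  norm_num at this

end Pool.Agent.H.MP_6153ad_an
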